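import Pool.Agent.H765.CB.Stm

/-!
# Project CB (helper765), job GB: the size of the moments
-/

set_option autoImplicit false

open Finset Polynomial

namespace Pool.Agent.H390.CB.GB

open Pool.Agent.H765.CA Pool.Agent.H765.CB

theorem t_GB (h : S_GBA) : S_GB := by
  intro F hF
  obtain ⟨A, hA0, hA⟩ := hF.siz
  refine ⟨8 + 12 * A, by positivity, fun r => ?_⟩
  obtain ⟨hd, hm⟩ := h F hF (r + 1) r (Nat.lt_succ_self r)
  have hr0 : (0 : ℝ) ≤ r := Nat.cast_nonneg r
  have ha1 : (1 : ℝ) ≤ (r : ℝ) + 1 := by linarith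
  have hρ0 : 0 < 1 / (16 * ((r : ℝ) + 1) ^ 3) := by positivity
  have hprim : IsPrimitiveRoot (-1 : ℂ) (2 * 1) := by
    have h1 := IsPrimitiveRoot.neg_one (R := ℂ) 0 (by norm_num)
    rw [mul_one]
    exact h1
  have hFac : Pool.Agent.Q79.KV.Fac 1 (-1) 0 := by
    refine ⟨by simp, fun j hj => ?_⟩
    have hj0 : j = 0 := by omega
    subst hj0
    unfold Pool.Agent.Q79.KV.brf
    simp
  have hbd : ∀ z ∈ Metric.sphere (0 : ℂ) (1 / (16 * ((r : ℝ) + 1) ^ 3)),
      ‖F (r + 1) ℂ (ue z)‖ ≤ Real.exp (A * (Real.log ((r : ℝ) + 1) + 4 + 3 * ((r : ℝ) + 1))) := by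
    intro z hz
    have hz1 : ‖z‖ = 1 / (16 * ((1 * (r + 1) : ℕ) : ℝ) ^ 3) := by
      rw [one_mul]
      push_cast
      exact mem_sphere_zero_iff_norm.1 hz
    have hu : ((ue z : ℂˣ) : ℂ) = (-1) * Complex.exp z := by
      unfold ue
      rw [Units.val_mk0]
      ring
    have h1 := hA 1 r (-1) z 0 (ue z) le_rfl hprim hFac hz1 hu
    rw [one_mul] at h1
    push_cast at h1
    rw [mul_zero, add_zero] at h1
    exact h1
  have hC := Complex.norm_iteratedDeriv_le_of_forall_mem_sphere_norm_le r hρ0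
    hd.diffContOnCl hbd
  rw [← hm, Complex.norm_intCast] at hC
  refine hC.trans ?_
  have hl2 : (0.6931471803 : ℝ) < Real.log 2 := Real.log_two_gt_d9
  have hl : Real.log 2 ≤ Real.log ((r : ℝ) + 2) := Real.log_le_log (by norm_num) (by linarith)
  have hla : Real.log ((r : ℝ) + 1) ≤ Real.log ((r : ℝ) + 2) :=
    Real.log_le_log (by linarith) (by linarith)
  have hla0 : 0 ≤ Real.log ((r : ℝ) + 1) := Real.log_nonneg ha1
  have hl16 : Real.log 16 = 4 * Real.log 2 := by
    rw [show (16 : ℝ) = 2 ^ 4 by norm_num, Real.log_pow]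
    norm_num
  have hfac : (r.factorial : ℝ) ≤ Real.exp (r * Real.log ((r : ℝ) + 1)) := by
    have h1 : (r.factorial : ℝ) ≤ ((r : ℝ) + 1) ^ r := by
      have h2 : r.factorial ≤ (r + 1) ^ r :=
        (Nat.factorial_le_pow r).trans (Nat.pow_le_pow_left (Nat.le_succ r) r)
      exact_mod_cast h2
    refine h1.trans (le_of_eq ?_)
    rw [← Real.rpow_natCast, Real.rpow_def_of_pos (by linarith)]
    ring_nf
  have hpow : ((1 / (16 * ((r : ℝ) + 1) ^ 3)) ^ r)⁻¹ =
      Real.exp (r * (Real.log 16 + 3 * Real.log ((r : ℝ) + 1))) := by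
    rw [one_div, inv_pow, inv_inv, ← Real.rpow_natCast, Real.rpow_def_of_pos (by positivity),
      Real.log_mul (by norm_num) (by positivity), Real.log_pow]
    push_cast
    ring_nf
  rw [div_eq_mul_inv, hpow]
  calc (r.factorial : ℝ) *
        Real.exp (A * (Real.log ((r : ℝ) + 1) + 4 + 3 * ((r : ℝ) + 1))) *
        Real.exp (r * (Real.log 16 + 3 * Real.log ((r : ℝ) + 1)))
      ≤ Real.exp (r * Real.log ((r : ℝ) + 1)) *
        Real.exp (A * (Real.log ((r : ℝ) + 1) + 4 + 3 * ((r : ℝ) + 1))) *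
        Real.exp (r * (Real.log 16 + 3 * Real.log ((r : ℝ) + 1))) := by
        gcongr
    _ = Real.exp (r * Real.log ((r : ℝ) + 1) +
        A * (Real.log ((r : ℝ) + 1) + 4 + 3 * ((r : ℝ) + 1)) +
        r * (Real.log 16 + 3 * Real.log ((r : ℝ) + 1))) := by
        rw [← Real.exp_add, ← Real.exp_add]
    _ ≤ Real.exp ((8 + 12 * A) * ((r : ℝ) + 1) * Real.log ((r : ℝ) + 2)) := by
        apply Real.exp_le_exp.2
        have e1 : (r : ℝ) * Real.log ((r : ℝ) + 1) ≤ r * Real.log ((r : ℝ) + 2) :=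
          mul_le_mul_of_nonneg_left hla hr0
        have e2 : (r : ℝ) * Real.log 16 ≤ 4 * (r * Real.log ((r : ℝ) + 2)) := by
          rw [hl16]
          have := mul_le_mul_of_nonneg_left hl hr0
          linarith
        have e3 : (r : ℝ) * Real.log ((r : ℝ) + 2) ≤
            ((r : ℝ) + 1) * Real.log ((r : ℝ) + 2) :=
          mul_le_mul_of_nonneg_right (by linarith) (by linarith)
        have e4 : Real.log ((r : ℝ) + 1) ≤ ((r : ℝ) + 1) * Real.log ((r : ℝ) + 2) := by
          have : 1 * Real.log ((r : ℝ) + 2) ≤ ((r : ℝ) + 1) * Real.log ((r : ℝ) + 2) :=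
            mul_le_mul_of_nonneg_right ha1 (by linarith)
          linarith
        have e5 : 7 * ((r : ℝ) + 1) ≤ 11 * (((r : ℝ) + 1) * Real.log ((r : ℝ) + 2)) := by
          have : ((r : ℝ) + 1) * 0.6931471803 ≤ ((r : ℝ) + 1) * Real.log ((r : ℝ) + 2) :=
            mul_le_mul_of_nonneg_left (by linarith) (by linarith)
          linarith
        have e6 : Real.log ((r : ℝ) + 1) + 4 + 3 * ((r : ℝ) + 1) ≤
            12 * (((r : ℝ) + 1) * Real.log ((r : ℝ) + 2)) := by
          linarith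
        have e7 := mul_le_mul_of_nonneg_left e6 hA0
        linarith

end Pool.Agent.H390.CB.GB
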